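import Pool.Agent.LPR.Stmts

set_option autoImplicit false

open Set Topology

namespace Pool.Agent.LPR.H8

open Pool.Agent.LSG Pool.Agent.LPR

/-- **SUB** -/
theorem sub (hdug : DugStmt) : SubStmt := by
  intro X _ _ O₁ O hO₁ hsub
  obtain ⟨e, he⟩ := hdug X (O₁ᶜ) hO₁.isClosed_compl
  let i : ↥(Fo O₁) →L[ℝ] ↥(Fo O) :=
    { toFun := fun f => ⟨f.1, f.2.1, fun x hx => f.2.2 x (fun h => hx (hsub h))⟩
      map_add' := fun f g => rfl
      map_smul' := fun c f => rfl
      cont := Continuous.subtype_mk continuous_subtype_val _ }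
  let r : ↥(Fo O) →L[ℝ] ↥(Cp ↥(O₁ᶜ)) :=
    { toFun := fun f => ⟨fun a => f.1 a.1, f.2.1.comp continuous_subtype_val⟩
      map_add' := fun f g => rfl
      map_smul' := fun c f => rfl
      cont := Continuous.subtype_mk
        (continuous_pi fun a => (continuous_apply a.1).comp continuous_subtype_val) _ }
  have hp : ∀ f : ↥(Fo O), (fun x => f.1 x - (e (r f)).1 x) ∈ Fo O₁ := by
    intro f
    refine ⟨Continuous.sub f.2.1 (e (r f)).2, fun x hx => ?_⟩
    have h := he (r f) ⟨x, hx⟩
    show f.1 x - (e (r f)).1 x = 0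
    rw [h]
    exact sub_self (f.1 x)
  let p : ↥(Fo O) →L[ℝ] ↥(Fo O₁) :=
    { toFun := fun f => ⟨fun x => f.1 x - (e (r f)).1 x, hp f⟩
      map_add' := fun f g => by
        apply Subtype.ext
        funext x
        show (f + g).1 x - (e (r (f + g))).1 x =
          (f.1 x - (e (r f)).1 x) + (g.1 x - (e (r g)).1 x)
        rw [map_add, map_add]
        show (f.1 x + g.1 x) - ((e (r f)).1 x + (e (r g)).1 x) = _
        ring
      map_smul' := fun c f => by
        apply Subtype.ext
        funext x
        show (c • f).1 x - (e (r (c • f))).1 x = c * (f.1 x - (e (r f)).1 x)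
        rw [map_smul, map_smul]
        show c * f.1 x - c * (e (r f)).1 x = _
        ring
      cont := by
        refine Continuous.subtype_mk ?_ _
        have h1 : Continuous fun f : ↥(Fo O) => (f.1 : X → ℝ) := continuous_subtype_val
        have h2 : Continuous fun f : ↥(Fo O) => ((e (r f)).1 : X → ℝ) :=
          continuous_subtype_val.comp (e.continuous.comp r.continuous)
        exact h1.sub h2 }
  refine ⟨i, p, fun f => ?_⟩
  apply Subtype.ext
  funext x
  show f.1 x - (e (r (i f))).1 x = f.1 x
  have hz : r (i f) = 0 := by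
    apply Subtype.ext
    funext a
    exact f.2.2 a.1 a.2
  rw [hz, map_zero]
  show f.1 x - 0 = f.1 x
  exact sub_zero _

end Pool.Agent.LPR.H8
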